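import Mathlib

/-!
# The nonattacking queens game

`MoverWins Q` and `MoverLoses Q` are the usual winning and losing positions (normal play) for the
player about to move when the queens on the board stand on the squares of the finite set `Q`.
-/

namespace Pool.Agent.H38.Queens

/-- The squares of the `n × n` board, as pairs (row, column), numbered from `0`. -/
abbrev Sq (n : ℕ) := Fin n × Fin n

/-- A queen on `s` attacks the square `t`: they share a row, a column, a diagonal `row - column` or an
antidiagonal `row + column`. -/
def Attacks {n : ℕ} (s t : Sq n) : Prop :=
  t.1 = s.1 ∨ t.2 = s.2 ∨ ((t.1 : ℤ) - (t.2 : ℤ) = (s.1 : ℤ) - (s.2 : ℤ)) ∨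
    ((t.1 : ℤ) + (t.2 : ℤ) = (s.1 : ℤ) + (s.2 : ℤ))

/-- Placing a queen on `s` is a legal move when queens stand exactly on the squares of `Q`. -/
def Legal {n : ℕ} (Q : Finset (Sq n)) (s : Sq n) : Prop :=
  s ∉ Q ∧ ∀ q ∈ Q, ¬ Attacks q s

mutual

/-- The player about to move has a winning strategy: some legal move leads to a position that is
lost for the opponent (who is then about to move). -/
inductive MoverWins {n : ℕ} : Finset (Sq n) → Prop
  | move (Q : Finset (Sq n)) (s : Sq n) : Legal Q s → MoverLoses (insert s Q) → MoverWins Q

/-- The player about to move loses against best play: every legal move (there may be none) leads to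
a position that is won for the opponent. -/
inductive MoverLoses {n : ℕ} : Finset (Sq n) → Prop
  | stuck (Q : Finset (Sq n)) : (∀ s : Sq n, Legal Q s → MoverWins (insert s Q)) → MoverLoses Q

end

/-- Second has a winning strategy in the game on the `n × n` board. -/
def SecondWins (n : ℕ) : Prop := MoverLoses (∅ : Finset (Sq n))

/-- First has a winning strategy in the game on the `n × n` board. -/
def FirstWins (n : ℕ) : Prop := MoverWins (∅ : Finset (Sq n))

end Pool.Agent.H38.Queens
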