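/-!
# The search functions

Written with `Nat.rec` and Boolean continuations so that Lean's kernel evaluates them quickly.
A position is a bit mask of available squares (in a local numbering of at most 74 squares); `T` is
a table of masks, whose block number `2 ^ i % 83` marks the squares not attacked from square `i`.
-/

namespace Pool.Agent.H38.Queens

/-- The squares of `A` not attacked from the square with hash `h = 2 ^ b % 83`. -/
def mv (T A h : Nat) : Nat := Nat.land A (Nat.shiftRight T (Nat.mul 74 h))

/-- Evaluate `v` first. -/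
noncomputable def frc (v : Nat) (f : Nat → Bool) : Bool :=
  Nat.rec (f 0) (fun n _ => f (Nat.succ n)) v

/-- `kT` if some move in the mask `X` (shifted) leads from `B` to a position accepted by `L`. -/
noncomputable def anyL (T : Nat) (L : Nat → Bool → Bool → Bool) (B : Nat) (kT : Bool) (k : Nat) :
    Nat → Nat → Bool → Bool :=
  Nat.rec (fun _ _ kF => kF) (fun _ ih X h kF => Nat.rec kF (fun Y _ =>
     (fun c => Nat.rec kF (fun h' _ => L (mv T B (Nat.succ h')) kT
        (ih (Nat.pred (Nat.div (Nat.succ Y) c)) (Nat.succ h') kF)) (Nat.mod (Nat.mul h c) 83))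
      (Nat.sub (Nat.succ Y) (Nat.land (Nat.succ Y) Y))) X) k

/-- `kT` if every move in the mask `X` (shifted) leads from `A` to a position from which some move
leads to a position accepted by `L`. -/
noncomputable def allL (T : Nat) (L : Nat → Bool → Bool → Bool) (A : Nat) (kF : Bool) (k : Nat) :
    Nat → Nat → Bool → Bool :=
  Nat.rec (fun _ _ _ => false) (fun _ ih X h kT => Nat.rec kT (fun Y _ =>
     (fun c => Nat.rec kF (fun h' _ => Nat.rec kF (fun B' _ => anyL T L (Nat.succ B')
        (ih (Nat.pred (Nat.div (Nat.succ Y) c)) (Nat.succ h') kT) 100 (Nat.succ B') 1 kF)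
        (mv T A (Nat.succ h'))) (Nat.mod (Nat.mul h c) 83))
      (Nat.sub (Nat.succ Y) (Nat.land (Nat.succ Y) Y))) X) k

/-- `kT` if the position with available set `A` is found lost for the mover in `2 * d` plies. -/
noncomputable def lose (T d : Nat) : Nat → Bool → Bool → Bool :=
  Nat.rec (fun A kT kF => Nat.rec kT (fun _ _ => kF) A)
    (fun _ ih A kT kF => Nat.rec kT (fun A' _ => allL T ih (Nat.succ A') kF 100 (Nat.succ A') 1 kT) A)
    d

/-- Level 2 of the certificate: `N` lists, as bytes, the replies to the moves of `X`. -/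
noncomputable def chk2 (T d A k : Nat) : Nat → Nat → Nat → Bool :=
  Nat.rec (fun _ _ _ => false) (fun _ ih X h N => Nat.rec true (fun Y _ =>
    frc (Nat.sub (Nat.succ Y) (Nat.land (Nat.succ Y) Y)) fun c =>
    frc (Nat.mod (Nat.mul h c) 83) fun h' =>
    frc (mv T A h') fun B =>
    frc (Nat.mod N 256) fun t =>
    frc (Nat.mod (Nat.pow 2 t) 83) fun g =>
    frc (Nat.pred (Nat.div (Nat.succ Y) c)) fun X' =>
    frc (Nat.div N 256) fun N' =>
    cond (Nat.beq (Nat.mod (Nat.shiftRight B t) 2) 1)
      (lose T d (mv T B g) (ih X' h' N') false) false) X) k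

/-- Level 1 of the certificate: the list gives the reply and the level 2 certificate. -/
noncomputable def chk1 (T d A : Nat) (l : List (Nat × Nat)) : Nat → Nat → Bool :=
  List.rec (fun X _ => Nat.beq X 0) (fun p _ ih X h => Nat.rec true (fun Y _ =>
    frc (Nat.sub (Nat.succ Y) (Nat.land (Nat.succ Y) Y)) fun c =>
    frc (Nat.mod (Nat.mul h c) 83) fun h' =>
    frc (mv T A h') fun B =>
    frc (Nat.mod (Nat.pow 2 p.1) 83) fun g =>
    frc (mv T B g) fun A1 =>
    frc (Nat.pred (Nat.div (Nat.succ Y) c)) fun X' =>
    cond (Nat.beq (Nat.mod (Nat.shiftRight B p.1) 2) 1)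
      (cond (chk2 T d A1 100 A1 1 p.2) (ih X' h') false) false) X) l

/-- `attB x y`: the squares with numbers `x` and `y` (number `12 * row + column`) attack each
other. -/
def attB (x y : Nat) : Bool :=
  Nat.beq (Nat.div x 12) (Nat.div y 12) ||
  (Nat.beq (Nat.mod x 12) (Nat.mod y 12) ||
  (Nat.beq (Nat.add (Nat.div y 12) (Nat.mod x 12)) (Nat.add (Nat.div x 12) (Nat.mod y 12)) ||
  Nat.beq (Nat.add (Nat.div y 12) (Nat.mod y 12)) (Nat.add (Nat.div x 12) (Nat.mod x 12))))

/-- The number of the `j`-th square of the byte list `S`. -/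
def sqn (S j : Nat) : Nat := Nat.mod (Nat.shiftRight S (Nat.mul 8 j)) 256

end Pool.Agent.H38.Queens
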