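import Pool.Agent.H38.Queens.Defs
import Pool.Agent.H38.Queens.Search

/-!
# Soundness of the search functions
-/

namespace Pool.Agent.H38.Queens

/-! ### General facts on the game -/

theorem attacks_self {n : ℕ} (s : Sq n) : Attacks s s := Or.inl rfl

theorem legal_insert {n : ℕ} {Q : Finset (Sq n)} {s t : Sq n} :
    Legal (insert s Q) t ↔ Legal Q t ∧ ¬ Attacks s t := by
  constructor
  · rintro ⟨h1, h2⟩
    refine ⟨⟨fun h => h1 (Finset.mem_insert_of_mem h),
      fun q hq => h2 q (Finset.mem_insert_of_mem hq)⟩, h2 s (Finset.mem_insert_self _ _)⟩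
  · rintro ⟨⟨h1, h2⟩, h3⟩
    refine ⟨?_, ?_⟩
    · intro h
      rcases Finset.mem_insert.1 h with h | h
      · subst h
        exact h3 (attacks_self _)
      · exact h1 h
    · intro q hq
      rcases Finset.mem_insert.1 hq with h | h
      · subst h
        exact h3
      · exact h2 q h

mutual

theorem MoverLoses.not_wins {n : ℕ} : ∀ {Q : Finset (Sq n)}, MoverLoses Q → MoverWins Q → False
  | _, .stuck _ h, .move _ s hs hl => MoverWins.not_loses (h s hs) hl

theorem MoverWins.not_loses {n : ℕ} : ∀ {Q : Finset (Sq n)}, MoverWins Q → MoverLoses Q → False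
  | _, .move _ s hs hl, .stuck _ h => MoverLoses.not_wins hl (h s hs)

end

theorem legal_map {n : ℕ} (σ : Equiv.Perm (Sq n)) (hσ : ∀ s t, Attacks (σ s) (σ t) ↔ Attacks s t)
    {Q : Finset (Sq n)} {s : Sq n} : Legal (Q.map σ.toEmbedding) (σ s) ↔ Legal Q s := by
  unfold Legal
  constructor
  · rintro ⟨h1, h2⟩
    refine ⟨fun h => h1 (Finset.mem_map_of_mem _ h), fun q hq ha => ?_⟩
    exact h2 (σ q) (Finset.mem_map_of_mem σ.toEmbedding hq) ((hσ _ _).2 ha)
  · rintro ⟨h1, h2⟩
    refine ⟨fun h => ?_, fun q hq ha => ?_⟩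
    · rcases Finset.mem_map.1 h with ⟨q, hq, he⟩
      have : q = s := σ.injective he
      exact h1 (this ▸ hq)
    · rcases Finset.mem_map.1 hq with ⟨q', hq', he⟩
      have he' : σ q' = q := he
      subst he'
      exact h2 q' hq' ((hσ _ _).1 ha)

mutual

theorem MoverWins.map {n : ℕ} (σ : Equiv.Perm (Sq n))
    (hσ : ∀ s t, Attacks (σ s) (σ t) ↔ Attacks s t) :
    ∀ {Q : Finset (Sq n)}, MoverWins Q → MoverWins (Q.map σ.toEmbedding)
  | _, .move Q s hs hl => by
    have h := MoverLoses.map σ hσ hl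
    rw [Finset.map_insert] at h
    exact .move _ (σ s) ((legal_map σ hσ).2 hs) h

theorem MoverLoses.map {n : ℕ} (σ : Equiv.Perm (Sq n))
    (hσ : ∀ s t, Attacks (σ s) (σ t) ↔ Attacks s t) :
    ∀ {Q : Finset (Sq n)}, MoverLoses Q → MoverLoses (Q.map σ.toEmbedding)
  | _, .stuck Q h => by
    refine .stuck _ (fun s hs => ?_)
    have hs' : Legal Q (σ.symm s) := by
      rw [← legal_map σ hσ, Equiv.apply_symm_apply]
      exact hs
    have h2 := MoverWins.map σ hσ (h (σ.symm s) hs')
    rw [Finset.map_insert] at h2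
    simpa using h2

end

/-! ### Positions as bit masks -/

/-- `T` is the attack table of the squares `sq 0, …, sq (K - 1)`. -/
structure Good (T K : ℕ) (sq : ℕ → Sq 12) : Prop where
  tab : ∀ i < K, ∀ j < K,
    (T.testBit (74 * (2 ^ i % 83) + j) = true ↔ ¬ Attacks (sq i) (sq j))

/-- The mask `M` represents the position with queens on `Q`. -/
structure Rep (K : ℕ) (sq : ℕ → Sq 12) (M : ℕ) (Q : Finset (Sq 12)) : Prop where
  lt : M < 2 ^ K
  iff : ∀ j < K, (M.testBit j = true ↔ Legal Q (sq j))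
  cov : ∀ s, Legal Q s → ∃ j < K, sq j = s

variable {T K : ℕ} {sq : ℕ → Sq 12}

theorem testBit_lt {M i : ℕ} (hM : M < 2 ^ K) (h : M.testBit i = true) : i < K := by
  by_contra hc
  have : M < 2 ^ i := lt_of_lt_of_le hM (Nat.pow_le_pow_right (by norm_num) (not_lt.1 hc))
  rw [Nat.testBit_lt_two_pow this] at h
  exact absurd h (by simp)

theorem mv_eq (T A h : ℕ) : mv T A h = A &&& (T >>> (74 * h)) := rfl

theorem Rep.move (hG : Good T K sq) {M i : ℕ} {Q : Finset (Sq 12)} (hR : Rep K sq M Q)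
    (hi : M.testBit i = true) : Rep K sq (mv T M (2 ^ i % 83)) (insert (sq i) Q) := by
  have hiK : i < K := testBit_lt hR.lt hi
  refine ⟨?_, ?_, ?_⟩
  · rw [mv_eq]
    exact lt_of_le_of_lt Nat.and_le_left hR.lt
  · intro j hj
    rw [mv_eq, Nat.testBit_and, Nat.testBit_shiftRight, legal_insert, ← hR.iff j hj,
      ← hG.tab i hiK j hj]
    simp
  · intro s hs
    exact hR.cov s (legal_insert.1 hs).1

/-- The mask is lost for the mover. -/
def Lo (K : ℕ) (sq : ℕ → Sq 12) (M : ℕ) : Prop := ∀ Q, Rep K sq M Q → MoverLoses Q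

/-- The mask is won for the mover. -/
def Wi (K : ℕ) (sq : ℕ → Sq 12) (M : ℕ) : Prop := ∀ Q, Rep K sq M Q → MoverWins Q

theorem wi_of (hG : Good T K sq) {B b : ℕ} (hb : B.testBit b = true)
    (hl : Lo K sq (mv T B (2 ^ b % 83))) : Wi K sq B := by
  intro Q hQ
  have hbK : b < K := testBit_lt hQ.lt hb
  exact .move Q (sq b) ((hQ.iff b hbK).1 hb) (hl _ (hQ.move hG hb))

theorem lo_of (hG : Good T K sq) {A : ℕ}
    (h : ∀ i, A.testBit i = true → Wi K sq (mv T A (2 ^ i % 83))) : Lo K sq A := by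
  intro Q hQ
  refine .stuck Q (fun s hs => ?_)
  obtain ⟨j, hj, rfl⟩ := hQ.cov s hs
  have hb : A.testBit j = true := (hQ.iff j hj).2 hs
  exact h j hb _ (hQ.move hG hb)

theorem lo_zero : Lo K sq 0 := by
  intro Q hQ
  refine .stuck Q (fun s hs => ?_)
  obtain ⟨j, hj, rfl⟩ := hQ.cov s hs
  have hb : (0 : ℕ).testBit j = true := (hQ.iff j hj).2 hs
  simp at hb

/-! ### The lowest bit -/

theorem lowbit (Y : ℕ) : ∃ i₀, (Nat.succ Y).testBit i₀ = true ∧
    Nat.sub (Nat.succ Y) (Nat.land (Nat.succ Y) Y) = 2 ^ i₀ ∧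
    (∀ i, (Nat.succ Y).testBit i = true → i = i₀ ∨
      ∃ i', i = i₀ + i' ∧ (Nat.pred (Nat.div (Nat.succ Y) (2 ^ i₀))).testBit i' = true) ∧
    (∀ i', (Nat.pred (Nat.div (Nat.succ Y) (2 ^ i₀))).testBit i' = true →
      (Nat.succ Y).testBit (i₀ + i') = true) := by
  obtain ⟨i₀, m, ⟨q, hq⟩, hX⟩ := Nat.exists_eq_two_pow_mul_odd (n := Nat.succ Y) (Nat.succ_ne_zero Y)
  subst hq
  have h2 : 0 < 2 ^ i₀ := by positivity
  have hY : Y = 2 ^ i₀ * (2 * q) + (2 ^ i₀ - 1) := by
    have : Nat.succ Y = 2 ^ i₀ * (2 * q) + 2 ^ i₀ := by rw [hX]; ring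
    have h3 : Y + 1 = 2 ^ i₀ * (2 * q) + 2 ^ i₀ := this
    omega
  have hlt : 2 ^ i₀ - 1 < 2 ^ i₀ := by omega
  have hand : Nat.land (Nat.succ Y) Y = 2 ^ i₀ * (2 * q) := by
    change (Nat.succ Y) &&& Y = _
    apply Nat.eq_of_testBit_eq
    intro j
    rw [Nat.testBit_and, hX]
    conv_lhs => rw [hY]
    rw [Nat.testBit_two_pow_mul_add _ hlt, Nat.testBit_two_pow_mul, Nat.testBit_two_pow_mul]
    by_cases hj : j < i₀
    · simp [hj, not_le.2 hj]
    · have hj' : i₀ ≤ j := not_lt.1 hj
      simp only [hj, if_false, ge_iff_le, hj', decide_true, Bool.true_and]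
      cases hk : j - i₀ with
      | zero => simp
      | succ k =>
        rw [Nat.testBit_succ, Nat.testBit_succ]
        have e1 : (2 * q + 1) / 2 = q := by omega
        have e2 : (2 * q) / 2 = q := by omega
        rw [e1, e2]
        simp
  have hsub : Nat.sub (Nat.succ Y) (Nat.land (Nat.succ Y) Y) = 2 ^ i₀ := by
    rw [hand]
    change Nat.succ Y - _ = _
    rw [hX]
    have : 2 ^ i₀ * (2 * q + 1) = 2 ^ i₀ * (2 * q) + 2 ^ i₀ := by ring
    omega
  have hdiv : Nat.pred (Nat.div (Nat.succ Y) (2 ^ i₀)) = 2 * q := by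
    change Nat.pred (Nat.succ Y / 2 ^ i₀) = _
    rw [hX, Nat.mul_div_cancel_left _ h2]
    rfl
  have htb : ∀ j, (Nat.succ Y).testBit j = (decide (j ≥ i₀) && (2 * q + 1).testBit (j - i₀)) := by
    intro j
    rw [hX, Nat.testBit_two_pow_mul]
  refine ⟨i₀, ?_, hsub, ?_, ?_⟩
  · rw [htb]
    simp
  · intro i hi
    rw [htb] at hi
    simp only [ge_iff_le, Bool.and_eq_true, decide_eq_true_eq] at hi
    obtain ⟨h1, h3⟩ := hi
    rcases Nat.eq_or_lt_of_le h1 with h | h
    · exact Or.inl h.symm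
    · right
      refine ⟨i - i₀, by omega, ?_⟩
      rw [hdiv]
      obtain ⟨k, hk⟩ : ∃ k, i - i₀ = k + 1 := ⟨i - i₀ - 1, by omega⟩
      rw [hk, Nat.testBit_succ] at h3 ⊢
      have e1 : (2 * q + 1) / 2 = q := by omega
      have e2 : (2 * q) / 2 = q := by omega
      rw [e1] at h3
      rw [e2]
      exact h3
  · intro i' hi'
    rw [hdiv] at hi'
    rw [htb]
    have e : i₀ + i' - i₀ = i' := by omega
    rw [e]
    simp only [ge_iff_le, le_add_iff_nonneg_right, zero_le, decide_true, Bool.true_and]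
    cases i' with
    | zero => simp
    | succ k =>
      rw [Nat.testBit_succ] at hi' ⊢
      have e1 : (2 * q + 1) / 2 = q := by omega
      have e2 : (2 * q) / 2 = q := by omega
      rw [e2] at hi'
      rw [e1]
      exact hi'

theorem two_pow_mod_ne (b : ℕ) : 2 ^ b % 83 ≠ 0 := by
  intro h
  have h1 : 83 ∣ 2 ^ b := Nat.dvd_of_mod_eq_zero h
  have hp : Nat.Prime 83 := by norm_num
  have := hp.dvd_of_dvd_pow h1
  omega

theorem hash_step (j i : ℕ) : Nat.mod (Nat.mul (2 ^ j % 83) (2 ^ i)) 83 = 2 ^ (j + i) % 83 := by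
  change (2 ^ j % 83 * 2 ^ i) % 83 = _
  rw [Nat.mod_mul_mod, pow_add]

/-! ### Soundness -/

/-- Soundness of a lost-position test. -/
def LS (K : ℕ) (sq : ℕ → Sq 12) (L : ℕ → Bool → Bool → Bool) : Prop :=
  ∀ M kT kF, L M kT kF = true → (Lo K sq M ∧ kT = true) ∨ kF = true

theorem anyL_sound (hG : Good T K sq) {L : ℕ → Bool → Bool → Bool} (hL : LS K sq L) (B : ℕ)
    (kT : Bool) : ∀ (k X j : ℕ) (kF : Bool),
      (∀ i, X.testBit i = true → B.testBit (j + i) = true) →
      anyL T L B kT k X (2 ^ j % 83) kF = true → (Wi K sq B ∧ kT = true) ∨ kF = true := by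
  intro k
  induction k with
  | zero => intro X j kF _ h; exact Or.inr h
  | succ k ih =>
    intro X j kF hX h
    cases X with
    | zero => exact Or.inr h
    | succ Y =>
      obtain ⟨i₀, h1, h2, h3, h4⟩ := lowbit Y
      have h' : (Nat.rec kF (fun h' _ => L (mv T B (Nat.succ h')) kT
        (anyL T L B kT k (Nat.pred (Nat.div (Nat.succ Y) (Nat.sub (Nat.succ Y)
          (Nat.land (Nat.succ Y) Y)))) (Nat.succ h') kF))
          (Nat.mod (Nat.mul (2 ^ j % 83) (Nat.sub (Nat.succ Y) (Nat.land (Nat.succ Y) Y))) 83) : Bool)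
          = true := h
      rw [h2, hash_step] at h'
      obtain ⟨r, hr⟩ := Nat.exists_eq_succ_of_ne_zero (two_pow_mod_ne (j + i₀))
      rw [hr] at h'
      have h'' : L (mv T B (Nat.succ r)) kT
        (anyL T L B kT k (Nat.pred (Nat.div (Nat.succ Y) (2 ^ i₀))) (Nat.succ r) kF) = true := h'
      rw [← hr] at h''
      rcases hL _ _ _ h'' with ⟨hlo, hk⟩ | hrest
      · exact Or.inl ⟨wi_of hG (hX i₀ h1) hlo, hk⟩
      · refine ih _ (j + i₀) kF ?_ hrest
        intro i hi
        have := hX (i₀ + i) (h4 i hi)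
        rwa [← Nat.add_assoc] at this

theorem allL_sound (hG : Good T K sq) {L : ℕ → Bool → Bool → Bool} (hL : LS K sq L) (A : ℕ)
    (kF : Bool) : ∀ (k X j : ℕ) (kT : Bool),
      allL T L A kF k X (2 ^ j % 83) kT = true →
      ((∀ i, X.testBit i = true → Wi K sq (mv T A (2 ^ (j + i) % 83))) ∧ kT = true) ∨
        kF = true := by
  intro k
  induction k with
  | zero => intro X j kT h; exact absurd h (by simp [allL])
  | succ k ih =>
    intro X j kT h
    cases X with
    | zero =>
      left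
      refine ⟨fun i hi => ?_, h⟩
      simp at hi
    | succ Y =>
      obtain ⟨i₀, h1, h2, h3, h4⟩ := lowbit Y
      have h' : (Nat.rec kF (fun h' _ => Nat.rec kF (fun B' _ => anyL T L (Nat.succ B')
        (allL T L A kF k (Nat.pred (Nat.div (Nat.succ Y) (Nat.sub (Nat.succ Y)
          (Nat.land (Nat.succ Y) Y)))) (Nat.succ h') kT) 100 (Nat.succ B') 1 kF)
        (mv T A (Nat.succ h')))
          (Nat.mod (Nat.mul (2 ^ j % 83) (Nat.sub (Nat.succ Y) (Nat.land (Nat.succ Y) Y))) 83) : Bool)
          = true := h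
      rw [h2, hash_step] at h'
      obtain ⟨r, hr⟩ := Nat.exists_eq_succ_of_ne_zero (two_pow_mod_ne (j + i₀))
      rw [hr] at h'
      have h'' : (Nat.rec kF (fun B' _ => anyL T L (Nat.succ B')
        (allL T L A kF k (Nat.pred (Nat.div (Nat.succ Y) (2 ^ i₀))) (Nat.succ r) kT) 100
          (Nat.succ B') 1 kF) (mv T A (Nat.succ r)) : Bool) = true := h'
      rw [← hr] at h''
      cases hB : mv T A (2 ^ (j + i₀) % 83) with
      | zero =>
        rw [hB] at h''
        exact Or.inr h''
      | succ B' =>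
        rw [hB] at h''
        have h3' : anyL T L (Nat.succ B') (allL T L A kF k
          (Nat.pred (Nat.div (Nat.succ Y) (2 ^ i₀))) (2 ^ (j + i₀) % 83) kT) 100 (Nat.succ B')
            (2 ^ 0 % 83) kF = true := h''
        rcases anyL_sound hG hL _ _ _ _ _ _ (fun i hi => by rwa [Nat.zero_add]) h3' with
          ⟨hw, hrest⟩ | hF
        · rcases ih _ _ _ hrest with ⟨hall, hk⟩ | hF
          · left
            refine ⟨fun i hi => ?_, hk⟩
            rcases h3 i hi with rfl | ⟨i', rfl, hi'⟩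
            · rw [hB]
              exact hw
            · rw [← Nat.add_assoc]
              exact hall i' hi'
          · exact Or.inr hF
        · exact Or.inr hF

theorem lose_sound (hG : Good T K sq) : ∀ d, LS K sq (lose T d) := by
  intro d
  induction d with
  | zero =>
    intro M kT kF h
    cases M with
    | zero => exact Or.inl ⟨lo_zero, h⟩
    | succ M => exact Or.inr h
  | succ d ih =>
    intro M kT kF h
    cases M with
    | zero => exact Or.inl ⟨lo_zero, h⟩
    | succ M =>
      have h' : allL T (lose T d) (Nat.succ M) kF 100 (Nat.succ M) (2 ^ 0 % 83) kT = true := h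
      rcases allL_sound hG ih _ _ _ _ _ _ h' with ⟨hall, hk⟩ | hF
      · left
        refine ⟨lo_of hG (fun i hi => ?_), hk⟩
        have := hall i hi
        rwa [Nat.zero_add] at this
      · exact Or.inr hF

theorem frc_eq (v : ℕ) (f : ℕ → Bool) : frc v f = f v := by
  cases v <;> rfl

theorem beq_bit (B t : ℕ) : Nat.beq (Nat.mod (Nat.shiftRight B t) 2) 1 = B.testBit t := by
  change Nat.beq (B >>> t % 2) 1 = _
  rw [Nat.testBit_eq_decide_div_mod_eq, Nat.shiftRight_eq_div_pow]
  rw [Bool.eq_iff_iff]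
  simp

theorem chk2_sound (hG : Good T K sq) (d A : ℕ) : ∀ (k X j N : ℕ),
      chk2 T d A k X (2 ^ j % 83) N = true →
      ∀ i, X.testBit i = true → Wi K sq (mv T A (2 ^ (j + i) % 83)) := by
  intro k
  induction k with
  | zero => intro X j N h; exact absurd h (by simp [chk2])
  | succ k ih =>
    intro X j N h i hi
    cases X with
    | zero => simp at hi
    | succ Y =>
      obtain ⟨i₀, h1, h2, h3, h4⟩ := lowbit Y
      have h' : (frc (Nat.sub (Nat.succ Y) (Nat.land (Nat.succ Y) Y)) fun c =>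
          frc (Nat.mod (Nat.mul (2 ^ j % 83) c) 83) fun h' =>
          frc (mv T A h') fun B =>
          frc (Nat.mod N 256) fun t =>
          frc (Nat.mod (Nat.pow 2 t) 83) fun g =>
          frc (Nat.pred (Nat.div (Nat.succ Y) c)) fun X' =>
          frc (Nat.div N 256) fun N' =>
          cond (Nat.beq (Nat.mod (Nat.shiftRight B t) 2) 1)
            (lose T d (mv T B g) (chk2 T d A k X' h' N') false) false) = true := h
      simp only [frc_eq] at h'
      rw [h2, hash_step, beq_bit, Bool.cond_false_right, Bool.and_eq_true] at h'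
      obtain ⟨hb, hl⟩ := h'
      rcases lose_sound hG d _ _ _ hl with ⟨hlo, hrest⟩ | hF
      · rcases h3 i hi with rfl | ⟨i', rfl, hi'⟩
        · exact wi_of hG hb hlo
        · rw [← Nat.add_assoc]
          exact ih _ _ _ hrest i' hi'
      · exact absurd hF (by simp)

theorem chk1_sound (hG : Good T K sq) (d A : ℕ) : ∀ (l : List (ℕ × ℕ)) (X j : ℕ),
      chk1 T d A l X (2 ^ j % 83) = true →
      ∀ i, X.testBit i = true → Wi K sq (mv T A (2 ^ (j + i) % 83)) := by
  intro l
  induction l with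
  | nil =>
    intro X j h i hi
    have hX : X = 0 := by
      have : Nat.beq X 0 = true := h
      exact Nat.eq_of_beq_eq_true this
    subst hX
    simp at hi
  | cons p l ih =>
    intro X j h i hi
    cases X with
    | zero => simp at hi
    | succ Y =>
      obtain ⟨i₀, h1, h2, h3, h4⟩ := lowbit Y
      have h' : (frc (Nat.sub (Nat.succ Y) (Nat.land (Nat.succ Y) Y)) fun c =>
          frc (Nat.mod (Nat.mul (2 ^ j % 83) c) 83) fun h' =>
          frc (mv T A h') fun B =>
          frc (Nat.mod (Nat.pow 2 p.1) 83) fun g =>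
          frc (mv T B g) fun A1 =>
          frc (Nat.pred (Nat.div (Nat.succ Y) c)) fun X' =>
          cond (Nat.beq (Nat.mod (Nat.shiftRight B p.1) 2) 1)
            (cond (chk2 T d A1 100 A1 1 p.2) (chk1 T d A l X' h') false) false) = true := h
      simp only [frc_eq] at h'
      rw [h2, hash_step, beq_bit, Bool.cond_false_right, Bool.cond_false_right,
        Bool.and_eq_true, Bool.and_eq_true] at h'
      obtain ⟨hb, hc, hrest⟩ := h'
      rcases h3 i hi with rfl | ⟨i', rfl, hi'⟩
      · refine wi_of hG hb (lo_of hG (fun i' hi' => ?_))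
        have hc' : chk2 T d (mv T (mv T A (2 ^ (j + i) % 83)) (2 ^ p.1 % 83)) 100
          (mv T (mv T A (2 ^ (j + i) % 83)) (2 ^ p.1 % 83)) (2 ^ 0 % 83) p.2 = true := hc
        have := chk2_sound hG d _ _ _ _ _ hc' i' hi'
        rwa [Nat.zero_add] at this
      · rw [← Nat.add_assoc]
        exact ih _ _ hrest i' hi'

/-! ### Squares as numbers -/

/-- The square with number `x = 12 * row + column`. -/
def sqOf (x : ℕ) : Sq 12 :=
  (⟨x / 12 % 12, Nat.mod_lt _ (by norm_num)⟩, ⟨x % 12, Nat.mod_lt _ (by norm_num)⟩)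

theorem attB_iff {x y : ℕ} (hx : x < 144) (hy : y < 144) :
    attB x y = true ↔ Attacks (sqOf x) (sqOf y) := by
  have h1 : x / 12 < 12 := by omega
  have h2 : y / 12 < 12 := by omega
  have hb : ∀ a b : ℕ, Nat.beq a b = true ↔ a = b := fun a b =>
    ⟨Nat.eq_of_beq_eq_true, fun h => h ▸ Nat.beq_refl a⟩
  unfold attB Attacks sqOf
  simp only [Bool.or_eq_true, hb, Nat.mod_eq_of_lt h1, Nat.mod_eq_of_lt h2, Fin.mk.injEq]
  change (x / 12 = y / 12 ∨ x % 12 = y % 12 ∨ y / 12 + x % 12 = x / 12 + y % 12 ∨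
    y / 12 + y % 12 = x / 12 + x % 12) ↔ _
  constructor
  · rintro (h | h | h | h)
    · exact Or.inl h.symm
    · exact Or.inr (Or.inl h.symm)
    · refine Or.inr (Or.inr (Or.inl ?_))
      push_cast
      omega
    · refine Or.inr (Or.inr (Or.inr ?_))
      push_cast
      omega
  · rintro (h | h | h | h)
    · exact Or.inl h.symm
    · exact Or.inr (Or.inl h.symm)
    · refine Or.inr (Or.inr (Or.inl ?_))
      push_cast at h
      omega
    · refine Or.inr (Or.inr (Or.inr ?_))
      push_cast at h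
      omega

/-- The squares of the byte list `S`. -/
def sqS (S j : ℕ) : Sq 12 := sqOf (sqn S j)

/-- The moves on the local squares `a, …, b - 1` are refuted. -/
def Cov (T K S a b : ℕ) : Prop :=
  ∀ i, a ≤ i → i < b → Wi K (sqS S) (mv T (2 ^ K - 1) (2 ^ i % 83))

theorem Cov.trans {T K S a b c : ℕ} (h : Cov T K S a b) (h' : Cov T K S b c) : Cov T K S a c := by
  intro i h1 h2
  rcases Nat.lt_or_ge i b with h3 | h3
  · exact h i h1 h3
  · exact h' i h3 h2

theorem Cov.of_chk {T K S : ℕ} (hG : Good T K (sqS S)) (a len d A X h : ℕ) (l : List (ℕ × ℕ))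
    (hA : A = 2 ^ K - 1) (hX : X = 2 ^ len - 1) (hh : h = 2 ^ a % 83)
    (hc : chk1 T d A l X h = true) : Cov T K S a (a + len) := by
  subst hA hX hh
  intro i h1 h2
  have := chk1_sound hG d _ l _ a hc (i - a) (by
    rw [Nat.testBit_two_pow_sub_one]
    simp only [decide_eq_true_eq]
    omega)
  have e : a + (i - a) = i := by omega
  rwa [e] at this

theorem Cov.lo {T K S : ℕ} (hG : Good T K (sqS S)) (h : Cov T K S 0 K) :
    Lo K (sqS S) (2 ^ K - 1) := by
  refine lo_of hG (fun i hi => h i (Nat.zero_le _) ?_)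
  rw [Nat.testBit_two_pow_sub_one] at hi
  simpa using hi

theorem final (T S K m t : ℕ) (hm : m < 144) (ht : t < 144)
    (hT : ∀ i < K, ∀ j < K, Nat.beq (Nat.mod (Nat.shiftRight T
      (Nat.add (Nat.mul 74 (Nat.mod (Nat.pow 2 i) 83)) j)) 2) 1 = !(attB (sqn S i) (sqn S j)))
    (hmt : attB m t = false)
    (hS : ∀ j < K, Nat.blt (sqn S j) 144 = true ∧ attB m (sqn S j) = false ∧
      attB t (sqn S j) = false)
    (hC : ∀ y < 144, attB m y = true ∨ attB t y = true ∨ ∃ j < K, sqn S j = y)
    (hl : Good T K (sqS S) → Cov T K S 0 K) :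
    MoverWins ({sqOf m} : Finset (Sq 12)) := by
  have hS1 : ∀ j < K, sqn S j < 144 := fun j hj => by
    have := (hS j hj).1
    rw [Nat.blt_eq] at this
    exact this
  have hG : Good T K (sqS S) := by
    refine ⟨fun i hi j hj => ?_⟩
    have h := hT i hi j hj
    rw [beq_bit] at h
    change T.testBit (74 * (2 ^ i % 83) + j) = _ at h
    rw [h]
    unfold sqS
    rw [← attB_iff (hS1 i hi) (hS1 j hj)]
    simp
  have hlt : MoverLoses (insert (sqOf t) ({sqOf m} : Finset (Sq 12))) := by
    refine Cov.lo hG (hl hG) _ ⟨?_, ?_, ?_⟩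
    · have : 0 < 2 ^ K := by positivity
      omega
    · intro j hj
      rw [Nat.testBit_two_pow_sub_one]
      simp only [hj, decide_true, true_iff]
      rw [legal_insert]
      have ha : ¬ Attacks (sqOf m) (sqS S j) := by
        unfold sqS
        rw [← attB_iff hm (hS1 j hj), (hS j hj).2.1]
        simp
      refine ⟨⟨?_, ?_⟩, ?_⟩
      · intro h
        rw [Finset.mem_singleton] at h
        rw [h] at ha
        exact ha (attacks_self _)
      · intro q hq
        rw [Finset.mem_singleton] at hq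
        rw [hq]
        exact ha
      · unfold sqS
        rw [← attB_iff ht (hS1 j hj), (hS j hj).2.2]
        simp
    · intro s hs
      rw [legal_insert] at hs
      obtain ⟨⟨h1, h2⟩, h3⟩ := hs
      have h2' := h2 _ (Finset.mem_singleton_self _)
      obtain ⟨a, b⟩ := s
      have hy : 12 * (a : ℕ) + b < 144 := by omega
      have hsq : sqOf (12 * (a : ℕ) + b) = (a, b) := by
        unfold sqOf
        have e1 : (12 * (a : ℕ) + b) / 12 % 12 = a := by omega
        have e2 : (12 * (a : ℕ) + b) % 12 = b := by omega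
        ext
        · exact e1
        · exact e2
      rcases hC _ hy with h | h | ⟨j, hj, h⟩
      · rw [attB_iff hm hy, hsq] at h
        exact absurd h h2'
      · rw [attB_iff ht hy, hsq] at h
        exact absurd h h3
      · exact ⟨j, hj, by unfold sqS; rw [h, hsq]⟩
  refine .move _ (sqOf t) ⟨?_, ?_⟩ hlt
  · intro h
    rw [Finset.mem_singleton] at h
    have : attB m t = true := by
      rw [attB_iff hm ht, h]
      exact attacks_self _
    rw [hmt] at this
    exact absurd this (by simp)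
  · intro q hq
    rw [Finset.mem_singleton] at hq
    rw [hq, ← attB_iff hm ht, hmt]
    simp

end Pool.Agent.H38.Queens
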