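import Pool.Agent.H38.Queens.C00
import Pool.Agent.H38.Queens.C01
import Pool.Agent.H38.Queens.C02
import Pool.Agent.H38.Queens.C03
import Pool.Agent.H38.Queens.C04
import Pool.Agent.H38.Queens.C05
import Pool.Agent.H38.Queens.C06
import Pool.Agent.H38.Queens.C07
import Pool.Agent.H38.Queens.C08
import Pool.Agent.H38.Queens.C09
import Pool.Agent.H38.Queens.C10
import Pool.Agent.H38.Queens.C11
import Pool.Agent.H38.Queens.C12
import Pool.Agent.H38.Queens.C13
import Pool.Agent.H38.Queens.C14
import Pool.Agent.H38.Queens.C15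
import Pool.Agent.H38.Queens.C16
import Pool.Agent.H38.Queens.C17
import Pool.Agent.H38.Queens.C18
import Pool.Agent.H38.Queens.C19
import Pool.Agent.H38.Queens.C20
import Pool.Agent.H38.Queens.Sound

/-! Every first move (up to symmetry) is refuted. -/

namespace Pool.Agent.H38.Queens

theorem first00 : MoverWins ({sqOf 0} : Finset (Sq 12)) :=
  final tab00 sqs00 74 0 67 (by norm_num) (by norm_num) tabOK00 firstOK00 sqOK00 covOK00
    fun hG => Cov.trans (Cov.of_chk hG 0 8 6 18889465931478580854783 255 1 _ (by norm_num) (by norm_num) (by norm_num) chk00_0)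
    (Cov.trans (Cov.of_chk hG 8 8 6 18889465931478580854783 255 7 _ (by norm_num) (by norm_num) (by norm_num) chk00_1)
    (Cov.trans (Cov.of_chk hG 16 8 6 18889465931478580854783 255 49 _ (by norm_num) (by norm_num) (by norm_num) chk00_2)
    (Cov.trans (Cov.of_chk hG 24 8 6 18889465931478580854783 255 11 _ (by norm_num) (by norm_num) (by norm_num) chk00_3)
    (Cov.trans (Cov.of_chk hG 32 8 6 18889465931478580854783 255 77 _ (by norm_num) (by norm_num) (by norm_num) chk00_4)
    (Cov.trans (Cov.of_chk hG 40 8 6 18889465931478580854783 255 41 _ (by norm_num) (by norm_num) (by norm_num) chk00_5)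
    (Cov.trans (Cov.of_chk hG 48 8 6 18889465931478580854783 255 38 _ (by norm_num) (by norm_num) (by norm_num) chk00_6)
    (Cov.trans (Cov.of_chk hG 56 8 6 18889465931478580854783 255 17 _ (by norm_num) (by norm_num) (by norm_num) chk00_7)
    (Cov.trans (Cov.of_chk hG 64 8 6 18889465931478580854783 255 36 _ (by norm_num) (by norm_num) (by norm_num) chk00_8)
    (Cov.of_chk hG 72 2 6 18889465931478580854783 3 3 _ (by norm_num) (by norm_num) (by norm_num) chk00_9)))))))))

theorem first01 : MoverWins ({sqOf 1} : Finset (Sq 12)) :=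
  final tab01 sqs01 73 1 78 (by norm_num) (by norm_num) tabOK01 firstOK01 sqOK01 covOK01
    fun hG => Cov.trans (Cov.of_chk hG 0 8 6 9444732965739290427391 255 1 _ (by norm_num) (by norm_num) (by norm_num) chk01_0)
    (Cov.trans (Cov.of_chk hG 8 8 6 9444732965739290427391 255 7 _ (by norm_num) (by norm_num) (by norm_num) chk01_1)
    (Cov.trans (Cov.of_chk hG 16 8 6 9444732965739290427391 255 49 _ (by norm_num) (by norm_num) (by norm_num) chk01_2)
    (Cov.trans (Cov.of_chk hG 24 8 6 9444732965739290427391 255 11 _ (by norm_num) (by norm_num) (by norm_num) chk01_3)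
    (Cov.trans (Cov.of_chk hG 32 8 6 9444732965739290427391 255 77 _ (by norm_num) (by norm_num) (by norm_num) chk01_4)
    (Cov.trans (Cov.of_chk hG 40 8 6 9444732965739290427391 255 41 _ (by norm_num) (by norm_num) (by norm_num) chk01_5)
    (Cov.trans (Cov.of_chk hG 48 8 6 9444732965739290427391 255 38 _ (by norm_num) (by norm_num) (by norm_num) chk01_6)
    (Cov.trans (Cov.of_chk hG 56 8 6 9444732965739290427391 255 17 _ (by norm_num) (by norm_num) (by norm_num) chk01_7)
    (Cov.trans (Cov.of_chk hG 64 8 6 9444732965739290427391 255 36 _ (by norm_num) (by norm_num) (by norm_num) chk01_8)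
    (Cov.of_chk hG 72 1 6 9444732965739290427391 1 3 _ (by norm_num) (by norm_num) (by norm_num) chk01_9)))))))))

theorem first02 : MoverWins ({sqOf 2} : Finset (Sq 12)) :=
  final tab02 sqs02 73 2 77 (by norm_num) (by norm_num) tabOK02 firstOK02 sqOK02 covOK02
    fun hG => Cov.trans (Cov.of_chk hG 0 8 6 9444732965739290427391 255 1 _ (by norm_num) (by norm_num) (by norm_num) chk02_0)
    (Cov.trans (Cov.of_chk hG 8 8 6 9444732965739290427391 255 7 _ (by norm_num) (by norm_num) (by norm_num) chk02_1)
    (Cov.trans (Cov.of_chk hG 16 8 6 9444732965739290427391 255 49 _ (by norm_num) (by norm_num) (by norm_num) chk02_2)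
    (Cov.trans (Cov.of_chk hG 24 8 6 9444732965739290427391 255 11 _ (by norm_num) (by norm_num) (by norm_num) chk02_3)
    (Cov.trans (Cov.of_chk hG 32 8 6 9444732965739290427391 255 77 _ (by norm_num) (by norm_num) (by norm_num) chk02_4)
    (Cov.trans (Cov.of_chk hG 40 8 6 9444732965739290427391 255 41 _ (by norm_num) (by norm_num) (by norm_num) chk02_5)
    (Cov.trans (Cov.of_chk hG 48 8 6 9444732965739290427391 255 38 _ (by norm_num) (by norm_num) (by norm_num) chk02_6)
    (Cov.trans (Cov.of_chk hG 56 8 6 9444732965739290427391 255 17 _ (by norm_num) (by norm_num) (by norm_num) chk02_7)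
    (Cov.trans (Cov.of_chk hG 64 8 6 9444732965739290427391 255 36 _ (by norm_num) (by norm_num) (by norm_num) chk02_8)
    (Cov.of_chk hG 72 1 6 9444732965739290427391 1 3 _ (by norm_num) (by norm_num) (by norm_num) chk02_9)))))))))

theorem first03 : MoverWins ({sqOf 3} : Finset (Sq 12)) :=
  final tab03 sqs03 73 3 78 (by norm_num) (by norm_num) tabOK03 firstOK03 sqOK03 covOK03
    fun hG => Cov.trans (Cov.of_chk hG 0 8 6 9444732965739290427391 255 1 _ (by norm_num) (by norm_num) (by norm_num) chk03_0)
    (Cov.trans (Cov.of_chk hG 8 8 6 9444732965739290427391 255 7 _ (by norm_num) (by norm_num) (by norm_num) chk03_1)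
    (Cov.trans (Cov.of_chk hG 16 8 6 9444732965739290427391 255 49 _ (by norm_num) (by norm_num) (by norm_num) chk03_2)
    (Cov.trans (Cov.of_chk hG 24 8 6 9444732965739290427391 255 11 _ (by norm_num) (by norm_num) (by norm_num) chk03_3)
    (Cov.trans (Cov.of_chk hG 32 8 6 9444732965739290427391 255 77 _ (by norm_num) (by norm_num) (by norm_num) chk03_4)
    (Cov.trans (Cov.of_chk hG 40 8 6 9444732965739290427391 255 41 _ (by norm_num) (by norm_num) (by norm_num) chk03_5)
    (Cov.trans (Cov.of_chk hG 48 8 6 9444732965739290427391 255 38 _ (by norm_num) (by norm_num) (by norm_num) chk03_6)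
    (Cov.trans (Cov.of_chk hG 56 8 6 9444732965739290427391 255 17 _ (by norm_num) (by norm_num) (by norm_num) chk03_7)
    (Cov.trans (Cov.of_chk hG 64 8 6 9444732965739290427391 255 36 _ (by norm_num) (by norm_num) (by norm_num) chk03_8)
    (Cov.of_chk hG 72 1 6 9444732965739290427391 1 3 _ (by norm_num) (by norm_num) (by norm_num) chk03_9)))))))))

theorem first04 : MoverWins ({sqOf 4} : Finset (Sq 12)) :=
  final tab04 sqs04 73 4 77 (by norm_num) (by norm_num) tabOK04 firstOK04 sqOK04 covOK04
    fun hG => Cov.trans (Cov.of_chk hG 0 8 6 9444732965739290427391 255 1 _ (by norm_num) (by norm_num) (by norm_num) chk04_0)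
    (Cov.trans (Cov.of_chk hG 8 8 6 9444732965739290427391 255 7 _ (by norm_num) (by norm_num) (by norm_num) chk04_1)
    (Cov.trans (Cov.of_chk hG 16 8 6 9444732965739290427391 255 49 _ (by norm_num) (by norm_num) (by norm_num) chk04_2)
    (Cov.trans (Cov.of_chk hG 24 8 6 9444732965739290427391 255 11 _ (by norm_num) (by norm_num) (by norm_num) chk04_3)
    (Cov.trans (Cov.of_chk hG 32 8 6 9444732965739290427391 255 77 _ (by norm_num) (by norm_num) (by norm_num) chk04_4)
    (Cov.trans (Cov.of_chk hG 40 8 6 9444732965739290427391 255 41 _ (by norm_num) (by norm_num) (by norm_num) chk04_5)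
    (Cov.trans (Cov.of_chk hG 48 8 6 9444732965739290427391 255 38 _ (by norm_num) (by norm_num) (by norm_num) chk04_6)
    (Cov.trans (Cov.of_chk hG 56 8 6 9444732965739290427391 255 17 _ (by norm_num) (by norm_num) (by norm_num) chk04_7)
    (Cov.trans (Cov.of_chk hG 64 8 6 9444732965739290427391 255 36 _ (by norm_num) (by norm_num) (by norm_num) chk04_8)
    (Cov.of_chk hG 72 1 6 9444732965739290427391 1 3 _ (by norm_num) (by norm_num) (by norm_num) chk04_9)))))))))

theorem first05 : MoverWins ({sqOf 5} : Finset (Sq 12)) :=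
  final tab05 sqs05 73 5 78 (by norm_num) (by norm_num) tabOK05 firstOK05 sqOK05 covOK05
    fun hG => Cov.trans (Cov.of_chk hG 0 8 6 9444732965739290427391 255 1 _ (by norm_num) (by norm_num) (by norm_num) chk05_0)
    (Cov.trans (Cov.of_chk hG 8 8 6 9444732965739290427391 255 7 _ (by norm_num) (by norm_num) (by norm_num) chk05_1)
    (Cov.trans (Cov.of_chk hG 16 8 6 9444732965739290427391 255 49 _ (by norm_num) (by norm_num) (by norm_num) chk05_2)
    (Cov.trans (Cov.of_chk hG 24 8 6 9444732965739290427391 255 11 _ (by norm_num) (by norm_num) (by norm_num) chk05_3)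
    (Cov.trans (Cov.of_chk hG 32 8 6 9444732965739290427391 255 77 _ (by norm_num) (by norm_num) (by norm_num) chk05_4)
    (Cov.trans (Cov.of_chk hG 40 8 6 9444732965739290427391 255 41 _ (by norm_num) (by norm_num) (by norm_num) chk05_5)
    (Cov.trans (Cov.of_chk hG 48 8 6 9444732965739290427391 255 38 _ (by norm_num) (by norm_num) (by norm_num) chk05_6)
    (Cov.trans (Cov.of_chk hG 56 8 6 9444732965739290427391 255 17 _ (by norm_num) (by norm_num) (by norm_num) chk05_7)
    (Cov.trans (Cov.of_chk hG 64 8 6 9444732965739290427391 255 36 _ (by norm_num) (by norm_num) (by norm_num) chk05_8)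
    (Cov.of_chk hG 72 1 6 9444732965739290427391 1 3 _ (by norm_num) (by norm_num) (by norm_num) chk05_9)))))))))

theorem first06 : MoverWins ({sqOf 13} : Finset (Sq 12)) :=
  final tab06 sqs06 72 13 66 (by norm_num) (by norm_num) tabOK06 firstOK06 sqOK06 covOK06
    fun hG => Cov.trans (Cov.of_chk hG 0 8 6 4722366482869645213695 255 1 _ (by norm_num) (by norm_num) (by norm_num) chk06_0)
    (Cov.trans (Cov.of_chk hG 8 8 6 4722366482869645213695 255 7 _ (by norm_num) (by norm_num) (by norm_num) chk06_1)
    (Cov.trans (Cov.of_chk hG 16 8 6 4722366482869645213695 255 49 _ (by norm_num) (by norm_num) (by norm_num) chk06_2)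
    (Cov.trans (Cov.of_chk hG 24 8 6 4722366482869645213695 255 11 _ (by norm_num) (by norm_num) (by norm_num) chk06_3)
    (Cov.trans (Cov.of_chk hG 32 8 6 4722366482869645213695 255 77 _ (by norm_num) (by norm_num) (by norm_num) chk06_4)
    (Cov.trans (Cov.of_chk hG 40 8 6 4722366482869645213695 255 41 _ (by norm_num) (by norm_num) (by norm_num) chk06_5)
    (Cov.trans (Cov.of_chk hG 48 8 6 4722366482869645213695 255 38 _ (by norm_num) (by norm_num) (by norm_num) chk06_6)
    (Cov.trans (Cov.of_chk hG 56 8 6 4722366482869645213695 255 17 _ (by norm_num) (by norm_num) (by norm_num) chk06_7)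
    (Cov.of_chk hG 64 8 6 4722366482869645213695 255 36 _ (by norm_num) (by norm_num) (by norm_num) chk06_8))))))))

theorem first07 : MoverWins ({sqOf 14} : Finset (Sq 12)) :=
  final tab07 sqs07 72 14 65 (by norm_num) (by norm_num) tabOK07 firstOK07 sqOK07 covOK07
    fun hG => Cov.trans (Cov.of_chk hG 0 8 6 4722366482869645213695 255 1 _ (by norm_num) (by norm_num) (by norm_num) chk07_0)
    (Cov.trans (Cov.of_chk hG 8 8 6 4722366482869645213695 255 7 _ (by norm_num) (by norm_num) (by norm_num) chk07_1)
    (Cov.trans (Cov.of_chk hG 16 8 6 4722366482869645213695 255 49 _ (by norm_num) (by norm_num) (by norm_num) chk07_2)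
    (Cov.trans (Cov.of_chk hG 24 8 6 4722366482869645213695 255 11 _ (by norm_num) (by norm_num) (by norm_num) chk07_3)
    (Cov.trans (Cov.of_chk hG 32 8 6 4722366482869645213695 255 77 _ (by norm_num) (by norm_num) (by norm_num) chk07_4)
    (Cov.trans (Cov.of_chk hG 40 8 6 4722366482869645213695 255 41 _ (by norm_num) (by norm_num) (by norm_num) chk07_5)
    (Cov.trans (Cov.of_chk hG 48 8 6 4722366482869645213695 255 38 _ (by norm_num) (by norm_num) (by norm_num) chk07_6)
    (Cov.trans (Cov.of_chk hG 56 8 6 4722366482869645213695 255 17 _ (by norm_num) (by norm_num) (by norm_num) chk07_7)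
    (Cov.of_chk hG 64 8 6 4722366482869645213695 255 36 _ (by norm_num) (by norm_num) (by norm_num) chk07_8))))))))

theorem first08 : MoverWins ({sqOf 15} : Finset (Sq 12)) :=
  final tab08 sqs08 74 15 65 (by norm_num) (by norm_num) tabOK08 firstOK08 sqOK08 covOK08
    fun hG => Cov.trans (Cov.of_chk hG 0 8 6 18889465931478580854783 255 1 _ (by norm_num) (by norm_num) (by norm_num) chk08_0)
    (Cov.trans (Cov.of_chk hG 8 8 6 18889465931478580854783 255 7 _ (by norm_num) (by norm_num) (by norm_num) chk08_1)
    (Cov.trans (Cov.of_chk hG 16 8 6 18889465931478580854783 255 49 _ (by norm_num) (by norm_num) (by norm_num) chk08_2)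
    (Cov.trans (Cov.of_chk hG 24 8 6 18889465931478580854783 255 11 _ (by norm_num) (by norm_num) (by norm_num) chk08_3)
    (Cov.trans (Cov.of_chk hG 32 8 6 18889465931478580854783 255 77 _ (by norm_num) (by norm_num) (by norm_num) chk08_4)
    (Cov.trans (Cov.of_chk hG 40 8 6 18889465931478580854783 255 41 _ (by norm_num) (by norm_num) (by norm_num) chk08_5)
    (Cov.trans (Cov.of_chk hG 48 8 6 18889465931478580854783 255 38 _ (by norm_num) (by norm_num) (by norm_num) chk08_6)
    (Cov.trans (Cov.of_chk hG 56 8 6 18889465931478580854783 255 17 _ (by norm_num) (by norm_num) (by norm_num) chk08_7)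
    (Cov.trans (Cov.of_chk hG 64 8 6 18889465931478580854783 255 36 _ (by norm_num) (by norm_num) (by norm_num) chk08_8)
    (Cov.of_chk hG 72 2 6 18889465931478580854783 3 3 _ (by norm_num) (by norm_num) (by norm_num) chk08_9)))))))))

theorem first09 : MoverWins ({sqOf 16} : Finset (Sq 12)) :=
  final tab09 sqs09 73 16 91 (by norm_num) (by norm_num) tabOK09 firstOK09 sqOK09 covOK09
    fun hG => Cov.trans (Cov.of_chk hG 0 8 6 9444732965739290427391 255 1 _ (by norm_num) (by norm_num) (by norm_num) chk09_0)
    (Cov.trans (Cov.of_chk hG 8 8 6 9444732965739290427391 255 7 _ (by norm_num) (by norm_num) (by norm_num) chk09_1)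
    (Cov.trans (Cov.of_chk hG 16 8 6 9444732965739290427391 255 49 _ (by norm_num) (by norm_num) (by norm_num) chk09_2)
    (Cov.trans (Cov.of_chk hG 24 8 6 9444732965739290427391 255 11 _ (by norm_num) (by norm_num) (by norm_num) chk09_3)
    (Cov.trans (Cov.of_chk hG 32 8 6 9444732965739290427391 255 77 _ (by norm_num) (by norm_num) (by norm_num) chk09_4)
    (Cov.trans (Cov.of_chk hG 40 8 6 9444732965739290427391 255 41 _ (by norm_num) (by norm_num) (by norm_num) chk09_5)
    (Cov.trans (Cov.of_chk hG 48 8 6 9444732965739290427391 255 38 _ (by norm_num) (by norm_num) (by norm_num) chk09_6)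
    (Cov.trans (Cov.of_chk hG 56 8 6 9444732965739290427391 255 17 _ (by norm_num) (by norm_num) (by norm_num) chk09_7)
    (Cov.trans (Cov.of_chk hG 64 8 6 9444732965739290427391 255 36 _ (by norm_num) (by norm_num) (by norm_num) chk09_8)
    (Cov.of_chk hG 72 1 6 9444732965739290427391 1 3 _ (by norm_num) (by norm_num) (by norm_num) chk09_9)))))))))

theorem first10 : MoverWins ({sqOf 17} : Finset (Sq 12)) :=
  final tab10 sqs10 74 17 79 (by norm_num) (by norm_num) tabOK10 firstOK10 sqOK10 covOK10
    fun hG => Cov.trans (Cov.of_chk hG 0 8 6 18889465931478580854783 255 1 _ (by norm_num) (by norm_num) (by norm_num) chk10_0)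
    (Cov.trans (Cov.of_chk hG 8 8 6 18889465931478580854783 255 7 _ (by norm_num) (by norm_num) (by norm_num) chk10_1)
    (Cov.trans (Cov.of_chk hG 16 8 6 18889465931478580854783 255 49 _ (by norm_num) (by norm_num) (by norm_num) chk10_2)
    (Cov.trans (Cov.of_chk hG 24 8 6 18889465931478580854783 255 11 _ (by norm_num) (by norm_num) (by norm_num) chk10_3)
    (Cov.trans (Cov.of_chk hG 32 8 6 18889465931478580854783 255 77 _ (by norm_num) (by norm_num) (by norm_num) chk10_4)
    (Cov.trans (Cov.of_chk hG 40 8 6 18889465931478580854783 255 41 _ (by norm_num) (by norm_num) (by norm_num) chk10_5)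
    (Cov.trans (Cov.of_chk hG 48 8 6 18889465931478580854783 255 38 _ (by norm_num) (by norm_num) (by norm_num) chk10_6)
    (Cov.trans (Cov.of_chk hG 56 8 6 18889465931478580854783 255 17 _ (by norm_num) (by norm_num) (by norm_num) chk10_7)
    (Cov.trans (Cov.of_chk hG 64 8 6 18889465931478580854783 255 36 _ (by norm_num) (by norm_num) (by norm_num) chk10_8)
    (Cov.of_chk hG 72 2 6 18889465931478580854783 3 3 _ (by norm_num) (by norm_num) (by norm_num) chk10_9)))))))))

theorem first11 : MoverWins ({sqOf 26} : Finset (Sq 12)) :=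
  final tab11 sqs11 70 26 66 (by norm_num) (by norm_num) tabOK11 firstOK11 sqOK11 covOK11
    fun hG => Cov.trans (Cov.of_chk hG 0 8 6 1180591620717411303423 255 1 _ (by norm_num) (by norm_num) (by norm_num) chk11_0)
    (Cov.trans (Cov.of_chk hG 8 8 6 1180591620717411303423 255 7 _ (by norm_num) (by norm_num) (by norm_num) chk11_1)
    (Cov.trans (Cov.of_chk hG 16 8 6 1180591620717411303423 255 49 _ (by norm_num) (by norm_num) (by norm_num) chk11_2)
    (Cov.trans (Cov.of_chk hG 24 8 6 1180591620717411303423 255 11 _ (by norm_num) (by norm_num) (by norm_num) chk11_3)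
    (Cov.trans (Cov.of_chk hG 32 8 6 1180591620717411303423 255 77 _ (by norm_num) (by norm_num) (by norm_num) chk11_4)
    (Cov.trans (Cov.of_chk hG 40 8 6 1180591620717411303423 255 41 _ (by norm_num) (by norm_num) (by norm_num) chk11_5)
    (Cov.trans (Cov.of_chk hG 48 8 6 1180591620717411303423 255 38 _ (by norm_num) (by norm_num) (by norm_num) chk11_6)
    (Cov.trans (Cov.of_chk hG 56 8 6 1180591620717411303423 255 17 _ (by norm_num) (by norm_num) (by norm_num) chk11_7)
    (Cov.of_chk hG 64 6 6 1180591620717411303423 63 36 _ (by norm_num) (by norm_num) (by norm_num) chk11_8))))))))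

theorem first12 : MoverWins ({sqOf 27} : Finset (Sq 12)) :=
  final tab12 sqs12 70 27 78 (by norm_num) (by norm_num) tabOK12 firstOK12 sqOK12 covOK12
    fun hG => Cov.trans (Cov.of_chk hG 0 8 6 1180591620717411303423 255 1 _ (by norm_num) (by norm_num) (by norm_num) chk12_0)
    (Cov.trans (Cov.of_chk hG 8 8 6 1180591620717411303423 255 7 _ (by norm_num) (by norm_num) (by norm_num) chk12_1)
    (Cov.trans (Cov.of_chk hG 16 8 6 1180591620717411303423 255 49 _ (by norm_num) (by norm_num) (by norm_num) chk12_2)
    (Cov.trans (Cov.of_chk hG 24 8 6 1180591620717411303423 255 11 _ (by norm_num) (by norm_num) (by norm_num) chk12_3)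
    (Cov.trans (Cov.of_chk hG 32 8 6 1180591620717411303423 255 77 _ (by norm_num) (by norm_num) (by norm_num) chk12_4)
    (Cov.trans (Cov.of_chk hG 40 8 6 1180591620717411303423 255 41 _ (by norm_num) (by norm_num) (by norm_num) chk12_5)
    (Cov.trans (Cov.of_chk hG 48 8 6 1180591620717411303423 255 38 _ (by norm_num) (by norm_num) (by norm_num) chk12_6)
    (Cov.trans (Cov.of_chk hG 56 8 6 1180591620717411303423 255 17 _ (by norm_num) (by norm_num) (by norm_num) chk12_7)
    (Cov.of_chk hG 64 6 6 1180591620717411303423 63 36 _ (by norm_num) (by norm_num) (by norm_num) chk12_8))))))))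

theorem first13 : MoverWins ({sqOf 28} : Finset (Sq 12)) :=
  final tab13 sqs13 73 28 91 (by norm_num) (by norm_num) tabOK13 firstOK13 sqOK13 covOK13
    fun hG => Cov.trans (Cov.of_chk hG 0 8 6 9444732965739290427391 255 1 _ (by norm_num) (by norm_num) (by norm_num) chk13_0)
    (Cov.trans (Cov.of_chk hG 8 8 6 9444732965739290427391 255 7 _ (by norm_num) (by norm_num) (by norm_num) chk13_1)
    (Cov.trans (Cov.of_chk hG 16 8 6 9444732965739290427391 255 49 _ (by norm_num) (by norm_num) (by norm_num) chk13_2)
    (Cov.trans (Cov.of_chk hG 24 8 6 9444732965739290427391 255 11 _ (by norm_num) (by norm_num) (by norm_num) chk13_3)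
    (Cov.trans (Cov.of_chk hG 32 8 6 9444732965739290427391 255 77 _ (by norm_num) (by norm_num) (by norm_num) chk13_4)
    (Cov.trans (Cov.of_chk hG 40 8 6 9444732965739290427391 255 41 _ (by norm_num) (by norm_num) (by norm_num) chk13_5)
    (Cov.trans (Cov.of_chk hG 48 8 6 9444732965739290427391 255 38 _ (by norm_num) (by norm_num) (by norm_num) chk13_6)
    (Cov.trans (Cov.of_chk hG 56 8 6 9444732965739290427391 255 17 _ (by norm_num) (by norm_num) (by norm_num) chk13_7)
    (Cov.trans (Cov.of_chk hG 64 8 6 9444732965739290427391 255 36 _ (by norm_num) (by norm_num) (by norm_num) chk13_8)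
    (Cov.of_chk hG 72 1 6 9444732965739290427391 1 3 _ (by norm_num) (by norm_num) (by norm_num) chk13_9)))))))))

theorem first14 : MoverWins ({sqOf 29} : Finset (Sq 12)) :=
  final tab14 sqs14 74 29 66 (by norm_num) (by norm_num) tabOK14 firstOK14 sqOK14 covOK14
    fun hG => Cov.trans (Cov.of_chk hG 0 8 6 18889465931478580854783 255 1 _ (by norm_num) (by norm_num) (by norm_num) chk14_0)
    (Cov.trans (Cov.of_chk hG 8 8 6 18889465931478580854783 255 7 _ (by norm_num) (by norm_num) (by norm_num) chk14_1)
    (Cov.trans (Cov.of_chk hG 16 8 6 18889465931478580854783 255 49 _ (by norm_num) (by norm_num) (by norm_num) chk14_2)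
    (Cov.trans (Cov.of_chk hG 24 8 6 18889465931478580854783 255 11 _ (by norm_num) (by norm_num) (by norm_num) chk14_3)
    (Cov.trans (Cov.of_chk hG 32 8 6 18889465931478580854783 255 77 _ (by norm_num) (by norm_num) (by norm_num) chk14_4)
    (Cov.trans (Cov.of_chk hG 40 8 6 18889465931478580854783 255 41 _ (by norm_num) (by norm_num) (by norm_num) chk14_5)
    (Cov.trans (Cov.of_chk hG 48 8 6 18889465931478580854783 255 38 _ (by norm_num) (by norm_num) (by norm_num) chk14_6)
    (Cov.trans (Cov.of_chk hG 56 8 6 18889465931478580854783 255 17 _ (by norm_num) (by norm_num) (by norm_num) chk14_7)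
    (Cov.trans (Cov.of_chk hG 64 8 6 18889465931478580854783 255 36 _ (by norm_num) (by norm_num) (by norm_num) chk14_8)
    (Cov.of_chk hG 72 2 6 18889465931478580854783 3 3 _ (by norm_num) (by norm_num) (by norm_num) chk14_9)))))))))

theorem first15 : MoverWins ({sqOf 39} : Finset (Sq 12)) :=
  final tab15 sqs15 70 39 92 (by norm_num) (by norm_num) tabOK15 firstOK15 sqOK15 covOK15
    fun hG => Cov.trans (Cov.of_chk hG 0 8 6 1180591620717411303423 255 1 _ (by norm_num) (by norm_num) (by norm_num) chk15_0)
    (Cov.trans (Cov.of_chk hG 8 8 6 1180591620717411303423 255 7 _ (by norm_num) (by norm_num) (by norm_num) chk15_1)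
    (Cov.trans (Cov.of_chk hG 16 8 6 1180591620717411303423 255 49 _ (by norm_num) (by norm_num) (by norm_num) chk15_2)
    (Cov.trans (Cov.of_chk hG 24 8 6 1180591620717411303423 255 11 _ (by norm_num) (by norm_num) (by norm_num) chk15_3)
    (Cov.trans (Cov.of_chk hG 32 8 6 1180591620717411303423 255 77 _ (by norm_num) (by norm_num) (by norm_num) chk15_4)
    (Cov.trans (Cov.of_chk hG 40 8 6 1180591620717411303423 255 41 _ (by norm_num) (by norm_num) (by norm_num) chk15_5)
    (Cov.trans (Cov.of_chk hG 48 8 6 1180591620717411303423 255 38 _ (by norm_num) (by norm_num) (by norm_num) chk15_6)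
    (Cov.trans (Cov.of_chk hG 56 8 6 1180591620717411303423 255 17 _ (by norm_num) (by norm_num) (by norm_num) chk15_7)
    (Cov.of_chk hG 64 6 6 1180591620717411303423 63 36 _ (by norm_num) (by norm_num) (by norm_num) chk15_8))))))))

theorem first16 : MoverWins ({sqOf 40} : Finset (Sq 12)) :=
  final tab16 sqs16 73 40 87 (by norm_num) (by norm_num) tabOK16 firstOK16 sqOK16 covOK16
    fun hG => Cov.trans (Cov.of_chk hG 0 8 6 9444732965739290427391 255 1 _ (by norm_num) (by norm_num) (by norm_num) chk16_0)
    (Cov.trans (Cov.of_chk hG 8 8 6 9444732965739290427391 255 7 _ (by norm_num) (by norm_num) (by norm_num) chk16_1)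
    (Cov.trans (Cov.of_chk hG 16 8 6 9444732965739290427391 255 49 _ (by norm_num) (by norm_num) (by norm_num) chk16_2)
    (Cov.trans (Cov.of_chk hG 24 8 6 9444732965739290427391 255 11 _ (by norm_num) (by norm_num) (by norm_num) chk16_3)
    (Cov.trans (Cov.of_chk hG 32 8 6 9444732965739290427391 255 77 _ (by norm_num) (by norm_num) (by norm_num) chk16_4)
    (Cov.trans (Cov.of_chk hG 40 8 6 9444732965739290427391 255 41 _ (by norm_num) (by norm_num) (by norm_num) chk16_5)
    (Cov.trans (Cov.of_chk hG 48 8 6 9444732965739290427391 255 38 _ (by norm_num) (by norm_num) (by norm_num) chk16_6)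
    (Cov.trans (Cov.of_chk hG 56 8 6 9444732965739290427391 255 17 _ (by norm_num) (by norm_num) (by norm_num) chk16_7)
    (Cov.trans (Cov.of_chk hG 64 8 6 9444732965739290427391 255 36 _ (by norm_num) (by norm_num) (by norm_num) chk16_8)
    (Cov.of_chk hG 72 1 6 9444732965739290427391 1 3 _ (by norm_num) (by norm_num) (by norm_num) chk16_9)))))))))

theorem first17 : MoverWins ({sqOf 41} : Finset (Sq 12)) :=
  final tab17 sqs17 70 41 66 (by norm_num) (by norm_num) tabOK17 firstOK17 sqOK17 covOK17
    fun hG => Cov.trans (Cov.of_chk hG 0 8 6 1180591620717411303423 255 1 _ (by norm_num) (by norm_num) (by norm_num) chk17_0)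
    (Cov.trans (Cov.of_chk hG 8 8 6 1180591620717411303423 255 7 _ (by norm_num) (by norm_num) (by norm_num) chk17_1)
    (Cov.trans (Cov.of_chk hG 16 8 6 1180591620717411303423 255 49 _ (by norm_num) (by norm_num) (by norm_num) chk17_2)
    (Cov.trans (Cov.of_chk hG 24 8 6 1180591620717411303423 255 11 _ (by norm_num) (by norm_num) (by norm_num) chk17_3)
    (Cov.trans (Cov.of_chk hG 32 8 6 1180591620717411303423 255 77 _ (by norm_num) (by norm_num) (by norm_num) chk17_4)
    (Cov.trans (Cov.of_chk hG 40 8 6 1180591620717411303423 255 41 _ (by norm_num) (by norm_num) (by norm_num) chk17_5)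
    (Cov.trans (Cov.of_chk hG 48 8 6 1180591620717411303423 255 38 _ (by norm_num) (by norm_num) (by norm_num) chk17_6)
    (Cov.trans (Cov.of_chk hG 56 8 6 1180591620717411303423 255 17 _ (by norm_num) (by norm_num) (by norm_num) chk17_7)
    (Cov.of_chk hG 64 6 6 1180591620717411303423 63 36 _ (by norm_num) (by norm_num) (by norm_num) chk17_8))))))))

theorem first18 : MoverWins ({sqOf 52} : Finset (Sq 12)) :=
  final tab18 sqs18 68 52 66 (by norm_num) (by norm_num) tabOK18 firstOK18 sqOK18 covOK18
    fun hG => Cov.trans (Cov.of_chk hG 0 8 6 295147905179352825855 255 1 _ (by norm_num) (by norm_num) (by norm_num) chk18_0)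
    (Cov.trans (Cov.of_chk hG 8 8 6 295147905179352825855 255 7 _ (by norm_num) (by norm_num) (by norm_num) chk18_1)
    (Cov.trans (Cov.of_chk hG 16 8 6 295147905179352825855 255 49 _ (by norm_num) (by norm_num) (by norm_num) chk18_2)
    (Cov.trans (Cov.of_chk hG 24 8 6 295147905179352825855 255 11 _ (by norm_num) (by norm_num) (by norm_num) chk18_3)
    (Cov.trans (Cov.of_chk hG 32 8 6 295147905179352825855 255 77 _ (by norm_num) (by norm_num) (by norm_num) chk18_4)
    (Cov.trans (Cov.of_chk hG 40 8 6 295147905179352825855 255 41 _ (by norm_num) (by norm_num) (by norm_num) chk18_5)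
    (Cov.trans (Cov.of_chk hG 48 8 6 295147905179352825855 255 38 _ (by norm_num) (by norm_num) (by norm_num) chk18_6)
    (Cov.trans (Cov.of_chk hG 56 8 6 295147905179352825855 255 17 _ (by norm_num) (by norm_num) (by norm_num) chk18_7)
    (Cov.of_chk hG 64 4 6 295147905179352825855 15 36 _ (by norm_num) (by norm_num) (by norm_num) chk18_8))))))))

theorem first19 : MoverWins ({sqOf 53} : Finset (Sq 12)) :=
  final tab19 sqs19 68 53 78 (by norm_num) (by norm_num) tabOK19 firstOK19 sqOK19 covOK19
    fun hG => Cov.trans (Cov.of_chk hG 0 8 6 295147905179352825855 255 1 _ (by norm_num) (by norm_num) (by norm_num) chk19_0)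
    (Cov.trans (Cov.of_chk hG 8 8 6 295147905179352825855 255 7 _ (by norm_num) (by norm_num) (by norm_num) chk19_1)
    (Cov.trans (Cov.of_chk hG 16 8 6 295147905179352825855 255 49 _ (by norm_num) (by norm_num) (by norm_num) chk19_2)
    (Cov.trans (Cov.of_chk hG 24 8 6 295147905179352825855 255 11 _ (by norm_num) (by norm_num) (by norm_num) chk19_3)
    (Cov.trans (Cov.of_chk hG 32 8 6 295147905179352825855 255 77 _ (by norm_num) (by norm_num) (by norm_num) chk19_4)
    (Cov.trans (Cov.of_chk hG 40 8 6 295147905179352825855 255 41 _ (by norm_num) (by norm_num) (by norm_num) chk19_5)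
    (Cov.trans (Cov.of_chk hG 48 8 6 295147905179352825855 255 38 _ (by norm_num) (by norm_num) (by norm_num) chk19_6)
    (Cov.trans (Cov.of_chk hG 56 8 6 295147905179352825855 255 17 _ (by norm_num) (by norm_num) (by norm_num) chk19_7)
    (Cov.of_chk hG 64 4 6 295147905179352825855 15 36 _ (by norm_num) (by norm_num) (by norm_num) chk19_8))))))))

theorem first20 : MoverWins ({sqOf 65} : Finset (Sq 12)) :=
  final tab20 sqs20 68 65 79 (by norm_num) (by norm_num) tabOK20 firstOK20 sqOK20 covOK20
    fun hG => Cov.trans (Cov.of_chk hG 0 8 6 295147905179352825855 255 1 _ (by norm_num) (by norm_num) (by norm_num) chk20_0)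
    (Cov.trans (Cov.of_chk hG 8 8 6 295147905179352825855 255 7 _ (by norm_num) (by norm_num) (by norm_num) chk20_1)
    (Cov.trans (Cov.of_chk hG 16 8 6 295147905179352825855 255 49 _ (by norm_num) (by norm_num) (by norm_num) chk20_2)
    (Cov.trans (Cov.of_chk hG 24 8 6 295147905179352825855 255 11 _ (by norm_num) (by norm_num) (by norm_num) chk20_3)
    (Cov.trans (Cov.of_chk hG 32 8 6 295147905179352825855 255 77 _ (by norm_num) (by norm_num) (by norm_num) chk20_4)
    (Cov.trans (Cov.of_chk hG 40 8 6 295147905179352825855 255 41 _ (by norm_num) (by norm_num) (by norm_num) chk20_5)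
    (Cov.trans (Cov.of_chk hG 48 8 6 295147905179352825855 255 38 _ (by norm_num) (by norm_num) (by norm_num) chk20_6)
    (Cov.trans (Cov.of_chk hG 56 8 6 295147905179352825855 255 17 _ (by norm_num) (by norm_num) (by norm_num) chk20_7)
    (Cov.of_chk hG 64 4 6 295147905179352825855 15 36 _ (by norm_num) (by norm_num) (by norm_num) chk20_8))))))))

end Pool.Agent.H38.Queens
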