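import Pool.Agent.H38.Queens.Firsts

/-!
# Second wins on the 12 × 12 board
-/

namespace Pool.Agent.H38.Queens

/-- Reflection of the columns. -/
def flipC : Equiv.Perm (Sq 12) := (Equiv.refl _).prodCongr Fin.revPerm

/-- Transposition of the board. -/
def swp : Equiv.Perm (Sq 12) := Equiv.prodComm _ _

theorem flipC_att (s t : Sq 12) : Attacks (flipC s) (flipC t) ↔ Attacks s t := by
  obtain ⟨⟨a, ha⟩, ⟨b, hb⟩⟩ := s
  obtain ⟨⟨c, hc⟩, ⟨d, hd⟩⟩ := t
  simp only [Attacks, flipC, Equiv.prodCongr_apply, Prod.map, Equiv.refl_apply, Fin.revPerm_apply,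
    Fin.rev, Fin.mk.injEq]
  constructor
  · rintro (h | h | h | h)
    · exact Or.inl h
    · right; left; omega
    · right; right; right; omega
    · right; right; left; omega
  · rintro (h | h | h | h)
    · exact Or.inl h
    · right; left; omega
    · right; right; right; omega
    · right; right; left; omega

theorem swp_att (s t : Sq 12) : Attacks (swp s) (swp t) ↔ Attacks s t := by
  obtain ⟨⟨a, ha⟩, ⟨b, hb⟩⟩ := s
  obtain ⟨⟨c, hc⟩, ⟨d, hd⟩⟩ := t
  simp only [Attacks, swp, Equiv.prodComm_apply, Prod.swap, Fin.mk.injEq]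
  constructor
  · rintro (h | h | h | h)
    · exact Or.inr (Or.inl h)
    · exact Or.inl h
    · right; right; left; omega
    · right; right; right; omega
  · rintro (h | h | h | h)
    · exact Or.inr (Or.inl h)
    · exact Or.inl h
    · right; right; left; omega
    · right; right; right; omega

/-- The first move on row `a`, column `b` is refuted. -/
def Ref (a b : ℕ) : Prop := MoverWins ({sqOf (12 * a + b)} : Finset (Sq 12))

theorem ref_eq {a b : ℕ} (ha : a < 12) (hb : b < 12) :
    Ref a b ↔ MoverWins ({((⟨a, ha⟩ : Fin 12), (⟨b, hb⟩ : Fin 12))} : Finset (Sq 12)) := by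
  have hsq : sqOf (12 * a + b) = ((⟨a, ha⟩ : Fin 12), (⟨b, hb⟩ : Fin 12)) := by
    unfold sqOf
    have e1 : (12 * a + b) / 12 % 12 = a := by omega
    have e2 : (12 * a + b) % 12 = b := by omega
    ext
    · exact e1
    · exact e2
  unfold Ref
  rw [hsq]

theorem ref_swap {a b : ℕ} (ha : a < 12) (hb : b < 12) (h : Ref a b) : Ref b a := by
  rw [ref_eq ha hb] at h
  rw [ref_eq hb ha]
  have := MoverWins.map swp swp_att h
  simpa [swp] using this

theorem ref_flipC {a b : ℕ} (ha : a < 12) (hb : b < 12) (h : Ref a b) : Ref a (11 - b) := by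
  have hb' : 11 - b < 12 := by omega
  rw [ref_eq ha hb] at h
  rw [ref_eq ha hb']
  have := MoverWins.map flipC flipC_att h
  rw [Finset.map_singleton] at this
  convert this using 2
  simp only [Equiv.coe_toEmbedding, flipC, Equiv.prodCongr_apply, Prod.map, Equiv.refl_apply,
    Fin.revPerm_apply, Fin.rev, Prod.mk.injEq, Fin.mk.injEq, true_and]
  omega

theorem ref_flipR {a b : ℕ} (ha : a < 12) (hb : b < 12) (h : Ref a b) : Ref (11 - a) b :=
  ref_swap hb (by omega) (ref_flipC hb ha (ref_swap ha hb h))

theorem ref_small (a b : ℕ) (hab : a ≤ b) (hb : b < 6) : Ref a b := by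
  interval_cases b <;> interval_cases a
  · exact first00
  · exact first01
  · exact first06
  · exact first02
  · exact first07
  · exact first11
  · exact first03
  · exact first08
  · exact first12
  · exact first15
  · exact first04
  · exact first09
  · exact first13
  · exact first16
  · exact first18
  · exact first05
  · exact first10
  · exact first14
  · exact first17
  · exact first19
  · exact first20

theorem ref_quad (a b : ℕ) (ha : a < 6) (hb : b < 6) : Ref a b := by
  rcases le_total a b with h | h
  · exact ref_small a b h hb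
  · exact ref_swap (by omega) (by omega) (ref_small b a h ha)

theorem ref_half (a b : ℕ) (ha : a < 6) (hb : b < 12) : Ref a b := by
  by_cases h : b < 6
  · exact ref_quad a b ha h
  · have h1 := ref_flipC (by omega) (by omega) (ref_quad a (11 - b) ha (by omega))
    have h2 : 11 - (11 - b) = b := by omega
    rwa [h2] at h1

theorem ref_all (a b : ℕ) (ha : a < 12) (hb : b < 12) : Ref a b := by
  by_cases h : a < 6
  · exact ref_half a b h hb
  · have h1 := ref_flipR (by omega) hb (ref_half (11 - a) b (by omega) hb)
    have h2 : 11 - (11 - a) = a := by omega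
    rwa [h2] at h1

theorem second_wins : MoverLoses (∅ : Finset (Sq 12)) := by
  refine .stuck _ (fun s _ => ?_)
  obtain ⟨⟨a, ha⟩, ⟨b, hb⟩⟩ := s
  exact (ref_eq ha hb).1 (ref_all a b ha hb)

end Pool.Agent.H38.Queens
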